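import Pool.Agent.H30.DH.Final

/-! # MP_128c63_an, Q1: limits along arcs at distinguished homomorphisms

Full positive answer. The proof: `φ` is given by an `L¹` density, which yields
`f(a) (1 - (ζ - a) C k (a)) = φ(f) - (ζ - a) C (f k) (a)` for almost every `a ∈ V`, where `C` is the
Cauchy transform; a quantitative lemma on Cauchy transforms along continua (proved from scratch:
curvature identity, maximum principle, descent on the best constant) gives points `a` near the end
of the arc where both Cauchy transforms are small compared with `1/|ζ - a|`. -/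

open MeasureTheory Set Filter Topology

namespace Pool.Agent.Results.MP_128c63_an.ArcLimits

open DHS

/-- Distinguished homomorphisms and limits along arcs. -/
theorem result (V : Set ℂ) (hV : IsOpen V) (hb : Bornology.IsBounded V) (ζ : ℂ)
    (hζ : ζ ∈ frontier V) (φ : HInf V → ℂ) (hom : IsHom φ) (hφ : Distinguished φ)
    (hfib : φ (HInf.coord hb) = ζ) (γ : ℝ → ℂ) (hγc : ContinuousOn γ (Ico 0 1))
    (hγV : ∀ t ∈ Ico (0 : ℝ) 1, γ t ∈ V) (hγ : Tendsto γ (𝓝[<] 1) (𝓝 ζ)) (f : HInf V) (L : ℂ)
    (hf : Tendsto (fun t => f.ext (γ t)) (𝓝[<] 1) (𝓝 L)) : L = φ f :=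
  final V hV hb ζ hζ φ hom hφ hfib γ hγc hγV hγ f L hf

end Pool.Agent.Results.MP_128c63_an.ArcLimits
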